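import Pool.Agent.EGF48.Seq

/-!
Sums of factorials tending to zero `p`-adically, for every prime `p`, with few repetitions.
-/

set_option autoImplicit false

namespace Pool.Agent.Results.MP_6f1fe1_nt.FewRepetitions

open Finset Nat Filter

/-- For every prime `p` there is a nondecreasing sequence `1 ≤ u 0 ≤ u 1 ≤ ⋯` of integers that
tends to infinity and for which the `p`-adic valuations of the partial sums of `∑ (u i)!` tend to
infinity, such that, `c a` being the number of `i` with `u i = a`: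
* if `c a > 1` then `a < N` for some multiple `N` of `p ^ 2` such that either
  `(N - a - 2)! < p ^ v_p(N)` and `c a < N - a`, or `(p - 1)! < p ^ v_p(N)` and `N ≤ a + p R`
  for some `R` with `(R - 1)! < p ^ v_p(N)`;
* `c a < (p k + 1) (l + 1) ^ 2` whenever `k! ≥ p a` and `l! ≥ k`;
* if `p ≥ 7`, at most `4 B ⌊x / p ^ 2⌋ + 2 p B (⌊log_p x⌋ + 3)` numbers `a < x` have `c a > 1`,
  where `B = ⌊log_2 p⌋ + 1`;
* if `p ≥ 7`, at least `(p - 3) ⌊x / p ^ 2⌋ - 4 p ^ 2 - p B ⌊log_p x⌋` numbers `a < x` have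
  `c a = 1`;
* if `p ≥ 7`, the sum of `c a` over all `a < x` with `c a > 1` (the number of the repeated terms
  below `x`) is at most `8224 B ^ 4 ⌊x / p ^ 2⌋ + 20 p ^ 2 B ^ 4 (⌊log_p x⌋ + 1) ^ 5`. -/
theorem result (p : ℕ) (hp : p.Prime) :
    ∃ u : ℕ → ℕ, Monotone u ∧ 1 ≤ u 0 ∧ Tendsto u atTop atTop ∧
      Tendsto (fun n => padicValNat p (∑ i ∈ range (n + 1), (u i)!)) atTop atTop ∧
      (∀ a, 1 < {i | u i = a}.ncard → ∃ N : ℕ, a < N ∧ p ^ 2 ∣ N ∧
        (((N - a - 2)! < p ^ padicValNat p N ∧ {i | u i = a}.ncard < N - a) ∨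
          ((p - 1)! < p ^ padicValNat p N ∧
            ∃ R : ℕ, (R - 1)! < p ^ padicValNat p N ∧ N ≤ a + p * R))) ∧
      (∀ a k l, p * a ≤ k ! → k ≤ l ! →
        {i | u i = a}.ncard < (p * k + 1) * (l + 1) ^ 2) ∧
      (7 ≤ p → ∀ x, ((range x).filter (fun a => 1 < {i | u i = a}.ncard)).card ≤
        4 * (Nat.log 2 p + 1) * (x / p ^ 2) +
          2 * p * (Nat.log 2 p + 1) * (Nat.log p x + 3)) ∧
      (7 ≤ p → ∀ x, (p - 3) * (x / p ^ 2) ≤
        ((range x).filter (fun a => {i | u i = a}.ncard = 1)).card +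
          (4 * p ^ 2 + p * (Nat.log 2 p + 1) * Nat.log p x)) ∧
      (7 ≤ p → ∀ x, ∑ a ∈ (range x).filter (fun a => 1 < {i | u i = a}.ncard),
          {i | u i = a}.ncard ≤
        8224 * (Nat.log 2 p + 1) ^ 4 * (x / p ^ 2) +
          20 * p ^ 2 * (Nat.log 2 p + 1) ^ 4 * (Nat.log p x + 1) ^ 5) :=
  Pool.Agent.EGF48.main_seq p hp

end Pool.Agent.Results.MP_6f1fe1_nt.FewRepetitions
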