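import Mathlib
import Pool.Agent.PS38.Compact

set_option autoImplicit false

namespace Pool.Agent.Results.MP_6f1fe1_nt.PadicStart

open Finset Filter
open scoped Nat Topology

open Classical in
/-- The `p`-adic starting points: the `p`-adic integers `α`, different from all `-1, -2, -3, …`,
for which some infinite set `B` of natural numbers with `0 ∈ B` has
`∑ b ∈ B, (α + 1) (α + 2) ⋯ (α + b) = 0` in `ℤ_p` (for `α = a` a natural number this says
`∑ b ∈ B, (a + b)! = 0`). -/
def StartPoints (p : ℕ) [Fact p.Prime] : Set ℤ_[p] :=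
  {α | (∀ m : ℕ, 1 ≤ m → α ≠ -(m : ℤ_[p])) ∧ ∃ B : Set ℕ, B.Infinite ∧ 0 ∈ B ∧
    Tendsto (fun n => ∑ b ∈ (range n).filter (· ∈ B), ∏ i ∈ range b, (α + (i : ℤ_[p]) + 1))
      atTop (𝓝 0)}

/-- For every prime `p`: a natural number `a` is a `p`-adic starting point iff some strictly
increasing sequence with first term `a` has `m_k → ∞`; the set of `p`-adic starting points is
uncountable and nowhere dense, and quantitatively a starting point `α` with `α + b` divisible by
`p ^ t` (`b ≥ 1`, `b ≠ 2`) has `p ^ t < 3 (b - 1)!`. -/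
theorem result (p : ℕ) [Fact p.Prime] :
    (∀ a : ℕ, ((a : ℤ_[p]) ∈ StartPoints p ↔ ∃ u : ℕ → ℕ, StrictMono u ∧ u 0 = a ∧
      Tendsto (fun k => padicValNat p (∑ i ∈ range (k + 1), (u i)!)) atTop atTop)) ∧
    ¬ (StartPoints p).Countable ∧ IsNowhereDense (StartPoints p) ∧
    ∀ α ∈ StartPoints p, ∀ b t : ℕ, 1 ≤ b → b ≠ 2 →
      ‖α + (b : ℤ_[p])‖ ≤ (p : ℝ) ^ (-(t : ℤ)) → p ^ t < 3 * (b - 1)! :=
  ⟨fun a => PS38.natural_start a, PS38.start_uncountable p, PS38.nowhereDense p,
    fun _ hα _ _ hb hb2 h => PS38.not_close hα hb hb2 h⟩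

end Pool.Agent.Results.MP_6f1fe1_nt.PadicStart
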