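import Mathlib
import Pool.Agent.PS38.Null7

set_option autoImplicit false

namespace Pool.Agent.Results.MP_6f1fe1_nt.TwoAdicFirstTerms

open Finset Filter
open scoped Nat Topology

/-- For `p = 2`: the natural numbers `a` which are the first term of some strictly increasing
sequence `u` with `v_2 (∑ i ≤ k, u_i !) → ∞` have natural density `0`. -/
theorem result : Tendsto (fun x : ℕ =>
    (({a : ℕ | a < x ∧ ∃ u : ℕ → ℕ, StrictMono u ∧ u 0 = a ∧
      Tendsto (fun k => padicValNat 2 (∑ i ∈ range (k + 1), (u i)!)) atTop atTop}.ncard : ℝ)) / x)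
    atTop (𝓝 0) :=
  PS38.Null.start_density_all

end Pool.Agent.Results.MP_6f1fe1_nt.TwoAdicFirstTerms
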