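import Mathlib
import Pool.Agent.PS38.Null

set_option autoImplicit false

namespace Pool.Agent.Results.MP_6f1fe1_nt.TwoAdicNullSums

open Finset Filter
open scoped Nat Topology

/-- For `p = 2`: the proportion of the residue classes modulo `2 ^ k` which contain a sum of
distinct factorials tends to `0`. -/
theorem result : Tendsto (fun k : ℕ =>
    (({r : ZMod (2 ^ k) | ∃ T : Finset ℕ, r = ((∑ n ∈ T, n ! : ℕ) : ZMod (2 ^ k))}.ncard : ℝ))
      / 2 ^ k) atTop (𝓝 0) :=
  PS38.Null.density_zero

end Pool.Agent.Results.MP_6f1fe1_nt.TwoAdicNullSums
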